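import Pool.Agent.P.MP_870b40_al.Basic

/-! Vectors generating simple modules, and a vector that encodes two members of a commuting
family. -/

namespace Pool.Agent.P.MP_870b40_al.CF

open Subgroup
open scoped commutatorElement

universe u w

variable {H : Type u} [Group H] {V : Type w} [AddCommGroup V] (ρ : H →* Module.End ℤ V)

/-- the ring of operators generated by `L` -/
def Rg (L : Subgroup H) : Subring (Module.End ℤ V) := Subring.closure (ρ '' L)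

/-- `a` generates a simple module -/
def Pure (L : Subgroup H) (a : V) : Prop :=
  a ≠ 0 ∧ ∀ r ∈ Rg ρ L, r a ≠ 0 → ∃ s ∈ Rg ρ L, s (r a) = a

variable {ρ}

theorem mem_Rg {L : Subgroup H} {l : H} (h : l ∈ L) : ρ l ∈ Rg ρ L :=
  Subring.subset_closure ⟨l, h, rfl⟩

theorem inv_app (h : H) (a : V) : ρ h⁻¹ (ρ h a) = a := by
  rw [← Module.End.mul_apply, ← map_mul, inv_mul_cancel, map_one, Module.End.one_apply]

theorem app_inv (h : H) (a : V) : ρ h (ρ h⁻¹ a) = a := by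
  simpa using inv_app (ρ := ρ) h⁻¹ a

theorem app_ne {h : H} {a : V} (ha : a ≠ 0) : ρ h a ≠ 0 := fun e =>
  ha (by rw [← inv_app (ρ := ρ) h a, e, map_zero])

theorem Rg_comm {L L' : Subgroup H} (h : L ≤ Cz L') {r s : Module.End ℤ V} (hr : r ∈ Rg ρ L)
    (hs : s ∈ Rg ρ L') (a : V) : r (s a) = s (r a) := by
  have h1 : Rg ρ L' ≤ Subring.centralizer (ρ '' L) := Subring.closure_le.2 (by
    rintro _ ⟨l', hl', rfl⟩ _ ⟨l, hl, rfl⟩
    rw [← map_mul, ← map_mul, mem_Cz.1 (h hl) l' hl'])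
  have h2 : Rg ρ L ≤ Subring.centralizer {s} := Subring.closure_le.2 (by
    rintro x hx _ rfl
    exact (h1 hs x hx).symm)
  rw [← Module.End.mul_apply, ← h2 hr s rfl, Module.End.mul_apply]

theorem Rg_conj (g : H) {L : Subgroup H} {r : Module.End ℤ V} (hr : r ∈ Rg ρ L) :
    ρ g * r * ρ g⁻¹ ∈ Rg ρ (g • L) := by
  have e : ρ g⁻¹ * ρ g = 1 := by rw [← map_mul, inv_mul_cancel, map_one]
  have e' : ρ g * ρ g⁻¹ = 1 := by rw [← map_mul, mul_inv_cancel, map_one]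
  induction hr using Subring.closure_induction with
  | mem x hx =>
    obtain ⟨l, hl, rfl⟩ := hx
    rw [← map_mul, ← map_mul]
    exact mem_Rg (smul_mem_smul.2 hl)
  | zero => simp
  | one => rw [mul_one, e']; exact one_mem _
  | add x y _ _ hx hy => rw [mul_add, add_mul]; exact add_mem hx hy
  | neg x _ hx => rw [mul_neg, neg_mul]; exact neg_mem hx
  | mul x y _ _ hx hy =>
    have := mul_mem hx hy
    rwa [mul_assoc, mul_assoc, ← mul_assoc (ρ g⁻¹), ← mul_assoc (ρ g⁻¹), e, one_mul,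
      ← mul_assoc, ← mul_assoc, mul_assoc (ρ g) x y] at this

theorem Pure.smul {L : Subgroup H} {a : V} (h : Pure ρ L a) (g : H) :
    Pure ρ (g • L) (ρ g a) := by
  refine ⟨app_ne h.1, fun r hr hra => ?_⟩
  have h1 := Rg_conj g⁻¹ hr
  rw [inv_smul_smul, inv_inv] at h1
  obtain ⟨s, hs, h2⟩ := h.2 _ h1 (app_ne hra)
  exact ⟨_, Rg_conj g hs, congrArg (ρ g) h2⟩

theorem Pure.of_ann {L : Subgroup H} {a b : V} (h : Pure ρ L a) (hb : b ≠ 0)
    (hab : ∀ r ∈ Rg ρ L, r a = 0 → r b = 0) : Pure ρ L b := by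
  refine ⟨hb, fun r hr hrb => ?_⟩
  obtain ⟨s, hs, h1⟩ := h.2 r hr fun e => hrb (hab r hr e)
  exact ⟨s, hs, sub_eq_zero.1 (hab (s * r - 1) (sub_mem (mul_mem hs hr) (one_mem _))
    (sub_eq_zero.2 h1))⟩

variable [Finite V]

theorem exists_pure_one (L : Subgroup H) {a : V} (ha : a ≠ 0) :
    ∃ r ∈ Rg ρ L, Pure ρ L (r a) := by
  obtain ⟨r, ⟨hr, h0⟩, hm⟩ := exists_minimalFor_of_wellFoundedLT
    (fun r : Module.End ℤ V => r ∈ Rg ρ L ∧ r a ≠ 0)
    (fun r => {b | ∃ s ∈ Rg ρ L, s (r a) = b}) ⟨1, one_mem _, ha⟩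
  refine ⟨r, hr, h0, fun r' hr' h1 => ?_⟩
  exact hm (j := r' * r) ⟨mul_mem hr' hr, h1⟩
    (by rintro _ ⟨s, hs, rfl⟩; exact ⟨s * r', mul_mem hs hr', rfl⟩) ⟨1, one_mem _, rfl⟩

theorem exists_pure [Nontrivial V] (F : Finset (Subgroup H))
    (hF : ∀ L ∈ F, ∀ L' ∈ F, L ≠ L' → L ≤ Cz L') : ∃ a : V, a ≠ 0 ∧ ∀ L ∈ F, Pure ρ L a := by
  classical
  induction F using Finset.induction_on with
  | empty => exact (exists_ne (0 : V)).imp fun a ha => ⟨ha, by simp⟩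
  | insert L F hL ih =>
    obtain ⟨a, ha, h1⟩ := ih fun L₁ h₁ L₂ h₂ =>
      hF L₁ (Finset.mem_insert_of_mem h₁) L₂ (Finset.mem_insert_of_mem h₂)
    obtain ⟨r, hr, h2⟩ := exists_pure_one (ρ := ρ) L ha
    refine ⟨r a, h2.1, fun L' hL' => ?_⟩
    rcases Finset.mem_insert.1 hL' with rfl | h3
    · exact h2
    · refine (h1 L' h3).of_ann h2.1 fun s hs e => ?_
      rw [← Rg_comm (hF L (Finset.mem_insert_self _ _) L' hL' fun e => hL (e ▸ h3)) hr hs, e,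
        map_zero]

/-- the use of the commutativity of finite division rings -/
theorem Pure.exists_ann {L : Subgroup H} {u : V} (h : Pure ρ L u)
    (hL : ¬ ∀ l ∈ ⁅L, L⁆, ρ l u = u) : ∃ l ∈ L, ∃ r ∈ Rg ρ L, r u = 0 ∧ r (ρ l u) ≠ 0 := by
  by_contra hcon
  push Not at hcon
  have h1 : ∀ s ∈ Rg ρ L, ∀ r ∈ Rg ρ L, r u = 0 → r (s u) = 0 := by
    intro s hs
    induction hs using Subring.closure_induction with
    | mem x hx =>
      obtain ⟨l, hl, rfl⟩ := hx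
      exact hcon l hl
    | zero => simp
    | one => exact fun r _ e => e
    | add x y _ _ hx hy =>
      intro r hr e
      rw [LinearMap.add_apply, map_add, hx r hr e, hy r hr e, add_zero]
    | neg x _ hx =>
      intro r hr e
      rw [LinearMap.neg_apply, map_neg, hx r hr e, neg_zero]
    | mul x y hx' _ hx hy => exact fun r hr e => hy (r * x) (mul_mem hr hx') (hx r hr e)
  let I : Ideal (Rg ρ L) :=
    { carrier := {r | r.1 u = 0}
      add_mem' := fun {a b} ha hb => by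
        change a.1 u + b.1 u = 0
        rw [ha, hb, add_zero]
      zero_mem' := rfl
      smul_mem' := fun c a ha => by
        change c.1 (a.1 u) = 0
        rw [ha, map_zero] }
  have : I.IsTwoSided := ⟨fun {a} b ha => h1 b.1 b.2 a.1 a.2 ha⟩
  have : Finite (Module.End ℤ V) := Finite.of_injective _ DFunLike.coe_injective
  have : Finite (Rg ρ L ⧸ I) := Finite.of_surjective _ Ideal.Quotient.mk_surjective
  have : Nontrivial (Rg ρ L ⧸ I) := Ideal.Quotient.nontrivial_iff.2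
    ((Ideal.ne_top_iff_one I).2 h.1)
  have : NoZeroDivisors (Rg ρ L ⧸ I) := ⟨fun {a b} e => by
    obtain ⟨a, rfl⟩ := Ideal.Quotient.mk_surjective a
    obtain ⟨b, rfl⟩ := Ideal.Quotient.mk_surjective b
    rw [← map_mul, Ideal.Quotient.eq_zero_iff_mem] at e
    rw [Ideal.Quotient.eq_zero_iff_mem, Ideal.Quotient.eq_zero_iff_mem]
    by_contra h2
    push Not at h2
    obtain ⟨s, hs, h3⟩ := h.2 a.1 a.2 h2.1
    have h4 := h1 b.1 b.2 (s * a.1 - 1) (sub_mem (mul_mem hs a.2) (one_mem _)) (sub_eq_zero.2 h3)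
    have h5 : a.1 (b.1 u) = 0 := e
    refine h2.2 (show b.1 u = 0 from ?_)
    simpa [h5] using h4⟩
  have : IsDomain (Rg ρ L ⧸ I) := NoZeroDivisors.to_isDomain _
  have hf := Finite.isDomain_to_isField (Rg ρ L ⧸ I)
  let St : Subgroup H :=
    { carrier := {l | ρ l u = u}
      one_mem' := by simp
      mul_mem' := fun {a b} ha hb => by
        change ρ (a * b) u = u
        rw [map_mul, Module.End.mul_apply, hb, ha]
      inv_mem' := fun {a} ha => by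
        change ρ a⁻¹ u = u
        rw [← (ha : ρ a u = u), inv_app, ha] }
  refine hL (commutator_le (H₃ := St).2 fun a ha b hb => ?_)
  have h2 := hf.mul_comm (Ideal.Quotient.mk I ⟨_, mem_Rg (L.inv_mem ha)⟩)
    (Ideal.Quotient.mk I ⟨_, mem_Rg (L.inv_mem hb)⟩)
  rw [← map_mul, ← map_mul, Ideal.Quotient.eq] at h2
  have h3 : ρ a⁻¹ (ρ b⁻¹ u) = ρ b⁻¹ (ρ a⁻¹ u) := sub_eq_zero.1 h2
  change ρ ⁅a, b⁆ u = u
  rw [commutatorElement_def]
  simp only [map_mul, Module.End.mul_apply]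
  rw [h3, app_inv, app_inv]

omit [Finite V] in
theorem not_pure {L L' : Subgroup H} (hc : L ≤ Cz L') {u : V} (h : Pure ρ L u) {l l' : H}
    (hl : l ∈ L) (hl' : l' ∈ L') {r r' : Module.End ℤ V} (hr : r ∈ Rg ρ L) (hr' : r' ∈ Rg ρ L')
    (h1 : r u = 0) (h2 : r (ρ l u) ≠ 0) (h3 : r' u = 0) (h4 : r' (ρ l' u) ≠ 0) :
    u + ρ l' (ρ l u) ≠ 0 ∧ ¬ Pure ρ L (u + ρ l' (ρ l u)) := by
  have e : r (u + ρ l' (ρ l u)) = ρ l' (r (ρ l u)) := by
    rw [map_add, h1, zero_add, Rg_comm hc hr (mem_Rg hl')]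
  have e0 : r (u + ρ l' (ρ l u)) ≠ 0 := e ▸ app_ne h2
  refine ⟨fun h0 => e0 (by rw [h0, map_zero]), fun hp => ?_⟩
  obtain ⟨s, hs, h5⟩ := hp.2 r hr e0
  have ht : s * r * ρ l - ρ l ∈ Rg ρ L :=
    sub_mem (mul_mem (mul_mem hs hr) (mem_Rg hl)) (mem_Rg hl)
  have h6 : ρ l' ((s * r * ρ l - ρ l) u) = u := by
    rw [e, Rg_comm hc hs (mem_Rg hl')] at h5
    rw [LinearMap.sub_apply, map_sub, sub_eq_iff_eq_add]
    exact h5
  obtain ⟨s', hs', h7⟩ := h.2 _ ht fun e => h.1 (by rw [← h6, e, map_zero])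
  refine h4 ?_
  rw [← h7, ← Rg_comm hc hs' (mem_Rg hl'), h6, ← Rg_comm hc hs' hr', h3, map_zero]

/-- one vector encodes two members of the family -/
theorem exists_pair [Nontrivial V] (F : Finset (Subgroup H))
    (hF : ∀ L ∈ F, ∀ L' ∈ F, L ≠ L' → L ≤ Cz L') (hs : ∀ h : H, ∀ L ∈ F, h • L ∈ F)
    (hx : ∀ L ∈ F, ∀ a : V, (∀ l ∈ ⁅L, L⁆, ρ l a = a) → a = 0) {L₁ L₂ : Subgroup H}
    (h₁ : L₁ ∈ F) (h₂ : L₂ ∈ F) (hne : L₁ ≠ L₂) :
    ∃ v : V, ∀ h : H, ρ h v = v → ∀ L, L = L₁ ∨ L = L₂ → h • L = L₁ ∨ h • L = L₂ := by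
  obtain ⟨u, hu, hp⟩ := exists_pure (ρ := ρ) F hF
  obtain ⟨l, hl, r, hr, a1, a2⟩ := (hp _ h₁).exists_ann fun e => hu (hx _ h₁ u e)
  obtain ⟨l', hl', r', hr', b1, b2⟩ := (hp _ h₂).exists_ann fun e => hu (hx _ h₂ u e)
  have c1 := not_pure (hF _ h₁ _ h₂ hne) (hp _ h₁) hl hl' hr hr' a1 a2 b1 b2
  have c2 := not_pure (hF _ h₂ _ h₁ hne.symm) (hp _ h₂) hl' hl hr' hr b1 b2 a1 a2
  rw [Rg_comm (hF _ h₁ _ h₂ hne) (mem_Rg hl) (mem_Rg hl')] at c2
  refine ⟨u + ρ l' (ρ l u), fun h hh L hL => ?_⟩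
  by_contra hcon
  push Not at hcon
  have hLF : h • L ∈ F := hs h L (hL.elim (· ▸ h₁) (· ▸ h₂))
  have c3 : Pure ρ (h • L) (u + ρ l' (ρ l u)) := (hp _ hLF).of_ann c1.1 fun s hs e => by
    rw [map_add, e, Rg_comm (hF _ hLF _ h₂ hcon.2) hs (mem_Rg hl'),
      Rg_comm (hF _ hLF _ h₁ hcon.1) hs (mem_Rg hl), e, map_zero, map_zero, add_zero]
  have c4 := c3.smul h⁻¹
  rw [inv_smul_smul, ← hh, inv_app] at c4
  rcases hL with rfl | rfl
  exacts [c1.2 c4, c2.2 c4]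

end Pool.Agent.P.MP_870b40_al.CF
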