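import Pool.Agent.P.MP_870b40_al.CF.AffS
import Pool.Agent.P.MP_870b40_al.CF.Pure

/-! The affine case with a nonabelian chief factor. -/

namespace Pool.Agent.P.MP_870b40_al.CF

open Subgroup MulAction
open scoped commutatorElement

universe u v w

variable {H : Type u} [Group H] {A : Type w} [CommGroup A] [MulDistribMulAction H A]
  {T : Type v} [Group T]

variable (A) in
/-- maximal normal subgroups of `R` with a fixed vector -/
structure MN (R Y : Subgroup H) : Prop where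
  le : Y ≤ R
  nz : Nz R Y
  ex : ∃ a : A, a ≠ 1 ∧ Y ≤ stabilizer H a
  max : ∀ Y', Y' ≤ R → Nz R Y' → ∀ a : A, a ≠ 1 → Y ≤ stabilizer H a → Y' ≤ stabilizer H a →
    Y' ≤ Y

variable {R : Subgroup H}

theorem MN.eq {Y Y' : Subgroup H} (h : MN A R Y) (h' : MN A R Y') {a : A} (ha : a ≠ 1)
    (h1 : Y ≤ stabilizer H a) (h2 : Y' ≤ stabilizer H a) : Y = Y' :=
  le_antisymm (h'.max Y h.le h.nz a ha h2 h1) (h.max Y' h'.le h'.nz a ha h1 h2)

theorem MN.smul [R.Normal] {Y : Subgroup H} (h : MN A R Y) (g : H) : MN A R (g • Y) := by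
  refine ⟨?_, ?_, ?_, fun Y' h1 h2 a ha h3 h4 => ?_⟩
  · rw [← normal_smul R g]; exact smul_mono h.le
  · rw [← normal_smul R g]; exact h.nz.smul g
  · obtain ⟨a, ha, h1⟩ := h.ex
    exact ⟨g • a, smul_ne_one ha, by rw [← smul_stab]; exact smul_mono h1⟩
  · have := h.max (g⁻¹ • Y') (by rw [← normal_smul R g⁻¹]; exact smul_mono h1)
      (by rw [← normal_smul R g⁻¹]; exact h2.smul _) (g⁻¹ • a) (smul_ne_one ha)
      (by rw [← smul_stab]; simpa using smul_mono (g := g⁻¹) h3)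
      (by rw [← smul_stab]; exact smul_mono h4)
    simpa using smul_mono (g := g) this

theorem exists_MN [Finite H] {Y₀ : Subgroup H} (h1 : Y₀ ≤ R) (h2 : Nz R Y₀) {a : A} (ha : a ≠ 1)
    (h3 : Y₀ ≤ stabilizer H a) : ∃ Y, Y₀ ≤ Y ∧ MN A R Y := by
  obtain ⟨Y, ⟨a1, a2, a3, a4⟩, hY⟩ := wellFounded_gt.has_min
    {Y : Subgroup H | Y₀ ≤ Y ∧ Y ≤ R ∧ Nz R Y ∧ ∃ a : A, a ≠ 1 ∧ Y ≤ stabilizer H a}
      ⟨Y₀, le_rfl, h1, h2, a, ha, h3⟩
  refine ⟨Y, a1, a2, a3, a4, fun Y' b1 b2 b hb b3 b4 => ?_⟩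
  by_contra h
  exact hY (Y ⊔ Y') ⟨a1.trans le_sup_left, sup_le a2 b1, a3.sup b2, b, hb, sup_le b3 b4⟩
    (lt_of_le_not_ge le_sup_left fun h4 => h (le_sup_right.trans h4))

theorem MN.half [hR : R.Normal] {Y Y' : Subgroup H} (h : MN A R Y) (h' : MN A R Y')
    (hne : Y ≠ Y') {u u' : A} (hu1 : u ≠ 1) (hu : u ∈ Fx A Y) (hu' : u' ∈ Fx A Y') {g : H}
    (hg : g • (u * u') = u * u') : g • Y = Y ∨ g • Y = Y' := by
  obtain ⟨y, hy, hyu⟩ := SetLike.not_le_iff_exists.1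
    fun e : Y' ≤ stabilizer H u => hne (h.eq h' hu1 hu e)
  have hd : ∀ r ∈ R, ∀ {Z : Subgroup H}, Nz R Z → ∀ a ∈ Fx A Z, r • a * a⁻¹ ∈ Fx A Z :=
    fun r hr Z hZ a ha => mul_mem (hZ.smul_mem_Fx hr ha) (inv_mem ha)
  have hr : g * y * g⁻¹ ∈ R := hR.conj_mem y (h'.le hy) g
  have ha := hd _ hr h.nz u hu
  have hb := hd _ hr h'.nz u' hu'
  have e : g • (y • u * u⁻¹) = ((g * y * g⁻¹) • u * u⁻¹) * ((g * y * g⁻¹) • u' * u'⁻¹) := by
    have e1 : y • u * u⁻¹ = y • (u * u') * (u * u')⁻¹ := by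
      rw [smul_mul', show y • u' = u' from hu' hy, mul_inv_rev, mul_assoc, mul_inv_cancel_left]
    rw [e1, smul_mul', smul_inv', hg, mul_mul_mul_comm, ← mul_inv, ← smul_mul' (g * y * g⁻¹),
      mul_smul, mul_smul, inv_smul_eq_iff.2 hg.symm]
  have h1 : g • (y • u * u⁻¹) ∈ Fx A (g • Y) := smul_mem_Fx.2 (hd _ (h'.le hy) h.nz u hu)
  have h2 : g • (y • u * u⁻¹) ≠ 1 := smul_ne_one fun e => hyu (mul_inv_eq_one.1 e)
  rw [e] at h1 h2
  generalize (g * y * g⁻¹) • u * u⁻¹ = a at *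
  generalize (g * y * g⁻¹) • u' * u'⁻¹ = b at *
  have h3 : a ∈ Fx A (g • Y) := fun z hz => by
    have hz' := (h.smul g).le hz
    have e1 : z • a * a⁻¹ = (z • b * b⁻¹)⁻¹ := by
      rw [eq_inv_iff_mul_eq_one, mul_mul_mul_comm, ← mul_inv, ← smul_mul',
        show z • (a * b) = a * b from h1 hz, mul_inv_cancel]
    by_contra h4
    exact hne (h.eq h' (fun e => h4 (mul_inv_eq_one.1 e)) (hd z hz' h.nz a ha)
      (e1 ▸ inv_mem (hd z hz' h'.nz b hb) : z • a * a⁻¹ ∈ Fx A Y'))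
  by_cases h4 : a = 1
  · rw [h4, one_mul] at h1 h2
    exact Or.inr ((h.smul g).eq h' h2 h1 hb)
  · exact Or.inl ((h.smul g).eq h h4 h3 ha)

variable [Finite H] [NAS T] {φ : H →* T} {E : Subgroup H}

/-- two vectors, each encoding a pair, fix three points -/
theorem goal_of_pair {X : Type*} [MulAction H X] (hE : Res φ E ⊤) (hP : PP φ ⊤) (Y : Set X)
    (hY : ∀ h : H, ∀ y ∈ Y, h • y ∈ Y) {y : X} (hy : y ∈ Y) {e : H} (he : e ∈ E) (hey : e • y ≠ y)
    (hp : ∀ a ∈ Y, ∀ b ∈ Y, a ≠ b → ∃ v : A, ∀ h : H, h • v = v → ∀ x, x = a ∨ x = b →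
      h • x = a ∨ h • x = b) : Goal A φ := by
  classical
  have key : ∀ b ∈ Y, ∃ v : A, ∀ W, W ≤ stabilizer H v → Full φ W →
      Full φ (W ⊓ stabilizer H y ⊓ stabilizer H b) := by
    intro b hb
    obtain ⟨b', hb', h1, h2⟩ : ∃ b' ∈ Y, y ≠ b' ∧ (b = y ∨ b = b') := by
      by_cases h : b = y
      · exact ⟨e • y, hY e y hy, hey.symm, Or.inl h⟩
      · exact ⟨b, hb, Ne.symm h, Or.inr rfl⟩
    obtain ⟨v, hv⟩ := hp y hy b' hb' h1
    refine ⟨v, fun W hW hf => ?_⟩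
    have hc : ({y, b'} : Finset X).card ≤ 3 := Finset.card_le_two.trans (by norm_num)
    exact (hf.inf_stab _ hc y fun w hw => by simpa using hv w (hW hw) y (Or.inl rfl)).inf_stab
      _ hc b fun w hw => by simpa using hv w (hW hw.1) b h2
  obtain ⟨g₁, -, g₂, -, h⟩ := exists_three (M₀ := ⊥) hE (fun K _ => hP K) bot_le bot_le he hey
  obtain ⟨v, hv⟩ := key _ (hY g₁ y hy)
  obtain ⟨w, hw⟩ := key _ (hY g₂ y hy)
  refine ⟨v, w, fun hf => h ((hw _ (inf_le_left.trans (inf_le_left.trans inf_le_right))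
    (hv _ inf_le_left hf)).mono ?_)⟩
  rintro x ⟨⟨⟨⟨-, h1⟩, h2⟩, -⟩, h3⟩
  exact ⟨⟨⟨mem_top x, h1⟩, h2⟩, h3⟩

/-- reduction to the case that normal subgroups of `R` have no fixed vectors -/
theorem kernel_red (c : Ctx A φ E R) (hP : PP φ ⊤) (hR : Red2 A φ) {Y₀ : Subgroup H}
    (h1 : Y₀ ≤ R) (h2 : Nz R Y₀) (h0 : Y₀ ≠ ⊥) {a : A} (ha : a ≠ 1)
    (h3 : Y₀ ≤ stabilizer H a) : Goal A φ := by
  have := c.normal
  obtain ⟨Y, h4, hY⟩ := exists_MN h1 h2 ha h3
  by_cases hz : Nz E Y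
  · refine red3 c hR hY.ex (fun a ha ha1 => nz_iff.1 (nz_of_smul fun g hg => ?_))
      (fun e => h0 (le_bot_iff.1 (e ▸ h4))) hz hY.nz
    refine (hY.smul g).eq hY ha1 ?_ ha
    have h5 := (smul_mem_Fx (g := g)).2 ha
    rwa [show g • a = a from hg] at h5
  obtain ⟨e, he, hne⟩ : ∃ e ∈ E, e • Y ≠ Y := by
    by_contra h
    push Not at h
    exact hz (nz_of_smul h)
  refine goal_of_pair c.res hP {Y | MN A R Y} (fun h Y hY => MN.smul hY h) hY he hne
    fun Y₁ hY₁ Y₂ hY₂ hne => ?_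
  obtain ⟨u, hu1, hu⟩ := MN.ex hY₁
  obtain ⟨u', hu1', hu'⟩ := MN.ex hY₂
  refine ⟨u * u', fun g hg x hx => ?_⟩
  rcases hx with rfl | rfl
  · exact MN.half hY₁ hY₂ hne hu1 hu hu' hg
  · exact (MN.half hY₂ hY₁ hne.symm hu1' hu' hu (by rwa [mul_comm])).symm

variable [Finite A] [Nontrivial A]

theorem case_na2 (c : Ctx A φ E R) (hS : Sch2 φ) (hP : PP φ ⊤) (hR : Red2 A φ)
    (hna : ¬ ⁅R, R⁆ ≤ R ⊓ Cz E) : Goal A φ := by
  have := c.normal
  have := c.res.nz.normal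
  set Z := R ⊓ Cz E with hZ
  have hZR : Z ≤ R := inf_le_left
  let π : H →* H ⧸ Z := QuotientGroup.mk' Z
  have hπ : Function.Surjective π := QuotientGroup.mk'_surjective Z
  have hker : π.ker = Z := QuotientGroup.ker_mk' Z
  let ψ : H ⧸ Z →* T := QuotientGroup.lift Z φ (hZR.trans c.ker)
  have hψ : ψ.comp π = φ := QuotientGroup.lift_comp_mk' _ _ _
  have hcm : (R.map π).comap π = R := by rw [comap_map_eq, hker, sup_eq_left.2 hZR]
  have hcomm : ∀ X Y : Subgroup H, X.map π ≤ Cz (Y.map π) ↔ ⁅X, Y⁆ ≤ Z := fun X Y => by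
    rw [← comm_eq_bot, ← map_commutator, Subgroup.map_eq_bot_iff, hker]
  have hM : MinNA (R.map π) := by
    refine ⟨c.normal.map π hπ, fun N hN hN1 => ?_, fun h => hna ((hcomm _ _).1 h)⟩
    have h1 : N.comap π ≤ R := (comap_mono hN).trans hcm.le
    rcases c.min _ h1 inferInstance with h | h
    · right; rw [← map_comap_eq_self_of_surjective hπ N, h]
    · left
      rw [← map_comap_eq_self_of_surjective hπ N, Subgroup.map_eq_bot_iff, hker]
      exact le_inf h1 h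
  have hC : ¬ Full ψ (Cz (R.map π)) := by
    intro h
    have := hM.normal
    rw [← map_comap_eq_self_of_surjective hπ (Cz (R.map π)), full_map, hψ] at h
    have h1 := c.res.min _ le_top h (nz_normal _ _)
    rw [← map_le_iff_le_comap, hcomm, commutator_comm, c.comm_eq] at h1
    exact c.ncz (h1.trans inf_le_right)
  have hSR : ∀ S, Comp (R.map π) S → S.comap π ≤ R := fun S hS =>
    (comap_mono hS.le).trans hcm.le
  have hRk : R.map π ≤ ψ.ker := by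
    rintro _ ⟨r, hr, rfl⟩
    exact c.ker hr
  have ht : (⊤ : Subgroup H).map π = ⊤ := map_top_of_surjective π hπ
  obtain ⟨D, hD⟩ := exists_res (φ := ψ) (L := ⊤)
    (((full_map π E).2 (hψ ▸ c.res.full)).mono le_top)
  have hED : E.map π = D := res_map π (hψ ▸ c.res) hD (ht ▸ le_top)
  have hRD : R.map π ≤ D := hED ▸ map_mono (c.comm_eq ▸ commutator_le_right R E)
  obtain ⟨S₀, hS₀, e, he, hne⟩ := moved hM (fun S hc => by
    have := hM.nas hc
    have := hM.normal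
    exact Sch2.push π hπ (hψ ▸ hS) D hD S _ hc.le hRD hc.nz (nz_normal _ _) (hc.le.trans hRk) S
      (MonoidHom.id S) Function.surjective_id) hRk hC hD
  obtain ⟨e, he', rfl⟩ : e ∈ E.map π := hED ▸ he
  have hSS : ∀ S, Comp (R.map π) S → ⁅S, S⁆ = S := fun S hc =>
    (hc.min _ (commutator_le_self S) (hc.nz.comm hc.nz)).resolve_left
      fun h => hM.not_le_Cz hc (comm_eq_bot.1 h)
  have hL : ∀ S, Comp (R.map π) S → (⁅S.comap π, S.comap π⁆).map π = S := fun S hc => by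
    rw [map_commutator, map_comap_eq_self_of_surjective hπ, hSS S hc]
  have hsm : ∀ (h : H) (S : Subgroup (H ⧸ Z)), h • S.comap π = (π h • S).comap π := fun h S => by
    ext x
    rw [mem_smul, mem_comap, mem_comap, mem_smul, map_mul, map_mul, map_inv]
  let F : Set (Subgroup H) := {L | ∃ S, Comp (R.map π) S ∧ ⁅S.comap π, S.comap π⁆ = L}
  have hF : ∀ h : H, ∀ L ∈ F, h • L ∈ F := by
    rintro h _ ⟨S, hc, rfl⟩
    exact ⟨π h • S, hM.comp_smul hc _, by rw [smul_comm', hsm]⟩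
  by_cases hx : ∀ L ∈ F, ∀ a : A, ⁅L, L⁆ ≤ stabilizer H a → a = 1
  swap
  · push Not at hx
    obtain ⟨_, ⟨S, hc, rfl⟩, a, h1, h2⟩ := hx
    have h3 : Nz R (S.comap π) := (nz_comap π hc.nz).mono hcm.ge
    refine kernel_red c hP hR ((commutator_le_self _).trans ((commutator_le_self _).trans
      (hSR S hc))) ((h3.comm h3).comm (h3.comm h3)) (fun h => hc.ne ?_) h2 h1
    rw [← hSS S hc, ← hL S hc, ← map_commutator, h, Subgroup.map_bot]
  refine goal_of_pair c.res hP F hF ⟨S₀, hS₀, rfl⟩ he' (fun h => hne ?_) fun L₁ h₁ L₂ h₂ h12 => ?_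
  · rw [smul_comm', hsm] at h
    rw [← hL _ (hM.comp_smul hS₀ (π e)), h, hL _ hS₀]
  obtain ⟨v, hv⟩ := exists_pair (ρ := Representation.ofMulDistribMulAction H A)
    (Set.toFinite F).toFinset (by
      simp only [Set.Finite.mem_toFinset]
      rintro _ ⟨S, hS, rfl⟩ _ ⟨S', hS', rfl⟩ hne
      have h1 : S ≠ S' := fun h => hne (by rw [h])
      have h2 : ⁅S.comap π, S'.comap π⁆ ≤ Cz (S.comap π) := by
        refine le_trans ?_ (c.z_le.trans (Cz_anti (hSR S hS)))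
        rw [← hcomm, map_comap_eq_self_of_surjective hπ, map_comap_eq_self_of_surjective hπ]
        exact hS.le_Cz hS' h1
      have h3 : ⁅⁅S.comap π, S.comap π⁆, S'.comap π⁆ = ⊥ :=
        commutator_commutator_eq_bot_of_rotate (comm_eq_bot.2 h2)
          (by rw [commutator_comm (S'.comap π)]; exact comm_eq_bot.2 h2)
      exact (comm_eq_bot.1 h3).trans (Cz_anti (commutator_le_self _)))
    (by simpa only [Set.Finite.mem_toFinset] using hF)
    (fun L hL' a ha => hx L (by simpa only [Set.Finite.mem_toFinset] using hL') a.toMul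
      fun l hl => ha l hl)
    ((Set.Finite.mem_toFinset _).2 h₁) ((Set.Finite.mem_toFinset _).2 h₂) h12
  exact ⟨v.toMul, fun h hh => hv h hh⟩

/-- the affine case -/
theorem goal2 (hI : Irr H A) (hS : Sch2 φ) (hP : PP φ ⊤) (hR : Red2 A φ) : Goal A φ := by
  by_cases hf : Full φ ⊤
  swap
  · exact ⟨1, 1, fun h => hf (h.mono le_top)⟩
  obtain ⟨E, hE⟩ := exists_res hf
  by_cases h : φ.ker ≤ Cz E
  · exact hI.case_central hE h
  obtain ⟨R, ⟨h1, h2, h3⟩, hmin⟩ :=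
    wellFounded_lt.has_min {R : Subgroup H | R.Normal ∧ R ≤ φ.ker ∧ ¬ R ≤ Cz E}
      ⟨φ.ker, inferInstance, le_rfl, h⟩
  have c : Ctx A φ E R := by
    refine ⟨hI, hE, h1, h2, h3, fun N hN hN1 => ?_⟩
    by_contra h4
    push Not at h4
    exact hmin N ⟨hN1, hN.trans h2, h4.2⟩ (lt_of_le_of_ne hN h4.1)
  by_cases hb : ⁅R, R⁆ ≤ R ⊓ Cz E
  · by_cases hab : ⁅R, R⁆ = ⊥
    · exact case_ab2 c hP hR hab
    · exact case_symp2 c hR hb hab
  · exact case_na2 c hS hP hR hb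

end Pool.Agent.P.MP_870b40_al.CF
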