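import Pool.Agent.P.MP_870b40_al.Basic

/-! A subset of a finite abelian group that no perfect group of automorphisms preserves. -/

namespace Pool.Agent.P.MP_870b40_al.CF

open Subgroup
open scoped commutatorElement

universe u

variable {G : Type u} [Group G]

theorem cz_step {K P P' : Subgroup G} {x : G} (hK : K ≤ ⁅K, K⁆) (hab : P ≤ Cz P)
    (hP : P = P' ⊔ zpowers x) (hz : Nz K P) (hc : K ≤ Cz P') : K ≤ Cz P := by
  have hP' : P' ≤ P := hP ▸ le_sup_left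
  have hx : x ∈ P := hP ▸ mem_sup_right (mem_zpowers x)
  have cx : ∀ p ∈ P', Commute p x := fun p hp => mem_Cz.1 (hab hx) p (hP' hp)
  have h1 : ∀ k ∈ K, ∃ p ∈ P', ∃ i : ℤ, k * x * k⁻¹ = p * x ^ i := fun k hk => by
    have h := hz k hk x hx
    rw [hP] at h
    obtain ⟨p, hp, _, ⟨i, rfl⟩, e⟩ := (nz_of_le_Cz ((zpowers_le.2 (hab hx)).trans
      (Cz_anti hP'))).mem_sup h
    exact ⟨p, hp, i, e⟩
  have h2 : ∀ k ∈ K, ∀ p ∈ P', k * p * k⁻¹ = p := fun k hk p hp => by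
    rw [← mem_Cz.1 (hc hk) p hp, mul_inv_cancel_right]
  have h3 : ∀ (a b p q : G) (i j : ℤ), a ∈ K → p ∈ P' → q ∈ P' → a * x * a⁻¹ = p * x ^ i →
      b * x * b⁻¹ = q * x ^ j → a * b * x * (a * b)⁻¹ = q * p ^ j * x ^ (i * j) := by
    intro a b p q i j ha hp hq e1 e2
    calc a * b * x * (a * b)⁻¹ = a * (b * x * b⁻¹) * a⁻¹ := by group
      _ = a * q * a⁻¹ * (a * x * a⁻¹) ^ j := by rw [e2, conj_zpow]; group
      _ = _ := by rw [h2 a ha q hq, e1, ((cx p hp).zpow_right i).mul_zpow, ← zpow_mul, mul_assoc]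
  let K₀ : Subgroup G :=
    { carrier := {k | k ∈ K ∧ ∃ p ∈ P', k * x * k⁻¹ = p * x ^ (1 : ℤ)}
      one_mem' := ⟨K.one_mem, 1, P'.one_mem, by simp⟩
      mul_mem' := by
        rintro a b ⟨ha, p, hp, e1⟩ ⟨hb, q, hq, e2⟩
        exact ⟨K.mul_mem ha hb, _, P'.mul_mem hq (P'.zpow_mem hp 1),
          h3 a b p q 1 1 ha hp hq e1 e2⟩
      inv_mem' := by
        rintro a ⟨ha, p, hp, e⟩
        refine ⟨K.inv_mem ha, p⁻¹, P'.inv_mem hp, ?_⟩
        rw [zpow_one] at e ⊢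
        rw [eq_inv_mul_iff_mul_eq, ← h2 _ (K.inv_mem ha) p hp]
        calc a⁻¹ * p * a⁻¹⁻¹ * (a⁻¹ * x * a⁻¹⁻¹) = a⁻¹ * (p * x) * a := by group
          _ = x := by rw [← e]; group }
  have key : ∀ N : Subgroup G, (∀ a ∈ K, ∀ b ∈ K, (b * a)⁻¹ * (a * b) ∈ N) → K ≤ N :=
    fun N hN => hK.trans (commutator_le.2 fun a ha b hb => by
      have := hN _ (K.inv_mem hb) _ (K.inv_mem ha)
      rw [commutatorElement_def]
      simpa [mul_assoc] using N.inv_mem this)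
  have h4 : K ≤ K₀ := key _ fun a ha b hb => by
    obtain ⟨p, hp, i, e1⟩ := h1 a ha
    obtain ⟨q, hq, j, e2⟩ := h1 b hb
    have e3 := h3 a b p q i j ha hp hq e1 e2
    have e4 := h3 b a q p j i hb hq hp e2 e1
    have m := P'.mul_mem (P'.mul_mem hq (P'.zpow_mem hp j))
      (P'.inv_mem (P'.mul_mem hp (P'.zpow_mem hq i)))
    refine ⟨K.mul_mem (K.inv_mem (K.mul_mem hb ha)) (K.mul_mem ha hb), _, m, ?_⟩
    rw [zpow_one, ← h2 _ (K.inv_mem (K.mul_mem hb ha)) _ m]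
    calc (b * a)⁻¹ * (a * b) * x * ((b * a)⁻¹ * (a * b))⁻¹
        = (b * a)⁻¹ * (a * b * x * (a * b)⁻¹) * (b * a) := by group
      _ = (b * a)⁻¹ * (q * p ^ j * (p * q ^ i)⁻¹) * (b * a * x * (b * a)⁻¹) * (b * a) := by
          rw [e3, e4, mul_comm j i]; group
      _ = _ := by group
  have h5 : K ≤ Cz (zpowers x) := key _ fun a ha b hb => by
    obtain ⟨-, p, hp, e1⟩ := h4 ha
    obtain ⟨-, q, hq, e2⟩ := h4 hb
    have e3 := h3 a b p q 1 1 ha hp hq e1 e2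
    have e4 := h3 b a q p 1 1 hb hq hp e2 e1
    rw [zpow_one, mem_Cz.1 (hab (hP' hq)) p (hP' hp), ← zpow_one p, ← e3] at e4
    refine le_Cz_comm.1 (zpowers_le.2 (mem_Cz.2 ?_)) (mem_zpowers _)
    rintro _ ⟨n, rfl⟩
    refine (Commute.zpow_left ?_ n).eq
    change _ * x = x * _
    calc (b * a)⁻¹ * (a * b) * x = (b * a)⁻¹ * (a * b * x * (a * b)⁻¹) * (a * b) := by group
      _ = _ := by rw [← e4]; group
  rw [le_Cz_comm, hP]
  exact sup_le (le_Cz_comm.1 hc) (le_Cz_comm.1 h5)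

theorem exists_flag [Finite G] (P : Subgroup G) (hab : P ≤ Cz P) : ∃ S : Set G, closure S = P ∧
    ∀ K : Subgroup G, K ≤ ⁅K, K⁆ → Nz K P → (∀ k ∈ K, ∀ s ∈ S, k * s * k⁻¹ ∈ S) → K ≤ Cz P := by
  induction P using WellFoundedLT.induction with
  | ind P ih =>
  by_cases h0 : P = ⊥
  · subst h0
    exact ⟨∅, closure_empty, fun K _ _ _ => le_Cz_comm.1 bot_le⟩
  obtain ⟨P', h1, hm⟩ := wellFounded_gt.has_min {Q : Subgroup G | Q < P} ⟨⊥, Ne.bot_lt h0⟩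
  have h1 : P' < P := h1
  obtain ⟨x, hx, hx'⟩ := SetLike.exists_of_lt h1
  have hP : P = P' ⊔ zpowers x := by
    by_contra h
    exact hm _ (lt_of_le_of_ne (sup_le h1.le (zpowers_le.2 hx)) (Ne.symm h))
      (lt_of_le_not_ge le_sup_left fun h2 => hx' (h2 (mem_sup_right (mem_zpowers x))))
  obtain ⟨S', a1, a2⟩ := ih P' h1 (h1.le.trans (hab.trans (Cz_anti h1.le)))
  have hS' : ∀ s ∈ S', s ∈ P' := fun s hs => a1 ▸ subset_closure hs
  refine ⟨(P : Set G) \ S', le_antisymm ((closure_le _).2 Set.sdiff_subset) fun y hy => ?_,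
    fun K hK hz hS => ?_⟩
  · by_cases h2 : y ∈ P'
    · have h3 : x ∈ closure ((P : Set G) \ S') :=
        Subgroup.subset_closure ⟨hx, fun h => hx' (hS' _ h)⟩
      exact (Subgroup.mul_mem_cancel_left _ h3).1 (Subgroup.subset_closure
        ⟨P.mul_mem hx hy, fun h => hx' ((P'.mul_mem_cancel_right h2).1 (hS' _ h))⟩)
    · exact subset_closure ⟨hy, fun h => h2 (hS' _ h)⟩
  have b1 : ∀ k ∈ K, ∀ s ∈ S', k * s * k⁻¹ ∈ S' := fun k hk s hs => by
    by_contra h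
    have := hS _ (K.inv_mem hk) _ ⟨hz k hk s (h1.le (hS' s hs)), h⟩
    exact this.2 (by simpa [mul_assoc] using hs)
  have b2 : Nz K P' := fun k hk a ha => by
    have : P' ≤ k⁻¹ • P' := by
      conv_lhs => rw [← a1]
      exact (closure_le _).2 fun s hs => mem_smul.2 (by simpa using hS' _ (b1 k hk s hs))
    simpa using mem_smul.1 (this ha)
  exact cz_step hK hab hP hz (a2 K hK b2 b1)

/-- the form used: a family of conjugates of `C` -/
theorem exists_flag_family [Finite G] {R C : Subgroup G} [hR : R.Normal]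
    (h : ⁅R, R⁆ ≤ normalizer (C : Set G)) : ∃ F : Set (Subgroup G), (∀ Y ∈ F, ∃ x ∈ R, Y = x • C) ∧
      ∀ K : Subgroup G, K ≤ ⁅K, K⁆ → Nz K C → (∀ k ∈ K, ∀ Y ∈ F, k • Y ∈ F) →
        ∀ x ∈ R, Nz K (x • C) := by
  set N := R ⊓ normalizer (C : Set G) with hN
  have hC : Nz (normalizer (C : Set G)) C := nz_iff.2 le_rfl
  have hRN : ⁅R, R⁆ ≤ N := le_inf (commutator_le_self R) h
  let Γ := normalizer (N : Set G)
  have hRΓ : R ≤ Γ := nz_iff.1 (nz_of_comm_le ((commutator_mono le_rfl inf_le_left).trans hRN))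
  let π : Γ →* Γ ⧸ N.subgroupOf Γ := QuotientGroup.mk' _
  have hπ : ∀ a b : Γ, π a = π b ↔ (a : G)⁻¹ * b ∈ N := fun a b => QuotientGroup.eq
  obtain ⟨S, a1, a2⟩ := exists_flag ((R.subgroupOf Γ).map π) (by
    rintro _ ⟨a, ha, rfl⟩
    rw [mem_Cz]
    rintro _ ⟨b, hb, rfl⟩
    rw [← map_mul, ← map_mul, hπ]
    have := hRN (commutator_mem_commutator (R.inv_mem ha) (R.inv_mem hb))
    simpa [commutatorElement_def, mul_assoc] using this)
  refine ⟨{Y | ∃ x : Γ, (x : G) ∈ R ∧ π x ∈ S ∧ Y = (x : G) • C}, ?_, fun K hK hz hF x hx => ?_⟩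
  · rintro _ ⟨x, hx, -, rfl⟩
    exact ⟨x, hx, rfl⟩
  have hKN : K ≤ normalizer (C : Set G) := nz_iff.1 hz
  have hKΓ : K ≤ Γ := nz_iff.1 ((nz_normal K R).inf (nz_of_le hKN))
  have e1 : ∀ k ∈ K, ∀ y : G, k • y • C = (k * y * k⁻¹) • C := fun k hk y => by
    rw [mul_smul, hz.smul_eq (K.inv_mem hk), mul_smul]
  have a3 := a2 ((K.subgroupOf Γ).map π) (by
      rw [← map_commutator]
      refine map_mono fun k hk => ?_
      rw [← mem_map_iff_mem Γ.subtype_injective, map_commutator, subgroupOf_map_subtype,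
        inf_eq_left.2 hKΓ]
      exact hK hk)
    (by
      rintro _ ⟨k, -, rfl⟩ _ ⟨a, ha, rfl⟩
      exact ⟨k * a * k⁻¹, hR.conj_mem _ ha k, by simp⟩)
    (by
      rintro _ ⟨k, hk, rfl⟩ s hs
      obtain ⟨a, ha, rfl⟩ : s ∈ (R.subgroupOf Γ).map π := a1 ▸ subset_closure hs
      obtain ⟨b, hb, b1, b2⟩ := hF k hk _ ⟨a, ha, hs, rfl⟩
      rw [← map_inv, ← map_mul, ← map_mul, ← (hπ b (k * a * k⁻¹)).2 ⟨?_, ?_⟩]
      · exact b1
      · exact R.mul_mem (R.inv_mem hb) (hR.conj_mem _ ha k)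
      · refine nz_iff.1 (nz_of_smul (L := zpowers _) fun l hl => ?_) (mem_zpowers _)
        refine (zpowers_le (H := MulAction.stabilizer G C)).2 ?_ hl
        rw [MulAction.mem_stabilizer_iff, mul_smul, inv_smul_eq_iff, ← b2, e1 k hk]
        rfl)
  refine nz_of_smul fun k hk => ?_
  have b1 := mem_Cz.1 (a3 ⟨⟨k, hKΓ hk⟩, hk, rfl⟩) _ ⟨⟨x, hRΓ hx⟩, hx, rfl⟩
  rw [← map_mul, ← map_mul, hπ] at b1
  have b2 := hC.smul_eq b1.2
  rw [mul_smul, inv_smul_eq_iff] at b2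
  change (k * x) • C = (x * k) • C at b2
  rw [← mul_smul, b2, mul_smul, hz.smul_eq hk]

end Pool.Agent.P.MP_870b40_al.CF
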