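import Pool.Agent.P.MP_870b40_al.CF.NA2
import Pool.Agent.P.MP_870b40_al.CF.Flag

/-! The affine case with an abelian or symplectic-type critical subgroup. -/

namespace Pool.Agent.P.MP_870b40_al.CF

open Subgroup MulAction
open scoped commutatorElement

universe u v w

variable {H : Type u} [Group H] {A : Type w} [CommGroup A] [MulDistribMulAction H A]
  {T : Type v} [Group T]

variable (A) in
/-- reduction to proper invariant subgroups, for subgroups containing the residual -/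
def Red2 (φ : H →* T) : Prop :=
  ∀ (U : Subgroup A) (L E : Subgroup H), Res φ E ⊤ → E ≤ L → U ≠ ⊤ →
    (∀ l ∈ L, ∀ a ∈ U, l • a ∈ U) → (∀ K, K ≤ L → Nz L K → Full φ K → ¬ U ≤ Fx A K) →
    ∃ a ∈ U, ∃ b ∈ U, ¬ Full φ (L ⊓ stabilizer H a ⊓ stabilizer H b)

variable [NAS T] {φ : H →* T} {E R : Subgroup H}

theorem red3 (c : Ctx A φ E R) (hR : Red2 A φ) {Y : Subgroup H}
    (hex : ∃ a : A, a ≠ 1 ∧ Y ≤ stabilizer H a)
    (key : ∀ a ∈ Fx A Y, a ≠ 1 → stabilizer H a ≤ normalizer (Y : Set H))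
    (h0 : Y ≠ ⊥) (h1 : Nz E Y) (h2 : Nz R Y) : Goal A φ := by
  have := c.normal
  have hL : Nz (normalizer (Y : Set H)) Y := nz_iff.2 le_rfl
  have hEL := nz_iff.1 h1
  have hRL := nz_iff.1 h2
  obtain ⟨a, ha, b, hb, h⟩ := hR (Fx A Y) (normalizer (Y : Set H)) E c.res hEL
    (fun h => h0 (c.eq_bot h)) (fun l hl a ha => hL.smul_mem_Fx hl ha) (by
      intro K hK hz hf hle
      obtain ⟨a, ha, haY⟩ := hex
      exact ha (c.fix_normal c.ne_bot
        ((c.le_of_le (hz.mono hRL) (c.res.min K le_top hf (hz.mono hEL))).trans (hle haY))))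
  refine ⟨a, b, fun hf => h ?_⟩
  by_cases ha1 : a = 1
  · by_cases hb1 : b = 1
    · subst ha1 hb1
      exact c.res.full.mono (le_inf (le_inf hEL fun k _ => smul_one k) fun k _ => smul_one k)
    · exact hf.mono (le_inf (le_inf (inf_le_right.trans (key b hb hb1)) inf_le_left) inf_le_right)
  · exact hf.mono (le_inf (le_inf (inf_le_left.trans (key a ha ha1)) inf_le_left) inf_le_right)

theorem red2 (c : Ctx A φ E R) (hR : Red2 A φ) {B Y : Subgroup H} [B.Normal]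
    (hY : MS A B Y) (h0 : Y ≠ ⊥) (h1 : Nz E Y) (h2 : Nz R Y) : Goal A φ :=
  red3 c hR hY.ex (fun a ha ha1 => by
    rw [← nz_iff, ← hY.eq ha1 ha]
    exact (nz_normal _ _).inf (nz_self _)) h0 h1 h2

variable [Finite H] [Finite A] [Nontrivial A]

theorem case_ab2 (c : Ctx A φ E R) (hP : PP φ ⊤) (hR : Red2 A φ) (hab : ⁅R, R⁆ = ⊥) :
    Goal A φ := by
  have := c.normal
  have hb : ⁅R, R⁆ ≤ R ⊓ Cz E := hab ▸ bot_le
  obtain ⟨r, hr, h1⟩ := c.exists_prime hb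
  have h2 : ∀ x ∈ R, x ^ r = 1 := fun x hx => mem_bot.1 (hab ▸ h1 x hx)
  have hA := c.no_torsion hr fun x hx => by rw [h2 x hx, one_pow]
  have hRR := comm_eq_bot.1 hab
  obtain ⟨Y, hY⟩ := exists_MS (A := A) R
  by_cases hz : Nz E Y
  · by_cases h0 : Y = ⊥
    · exfalso
      subst h0
      obtain ⟨z, hz1, hz2⟩ := (R.bot_or_exists_ne_one).resolve_left c.ne_bot
      have h3 := hY.le_zpowers hRR hr h2 hA hz1 hz2
      have h4 := comm_centralizes (K := E) (y := z) (h3 ▸ nz_normal E R)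
      rw [← h3] at h4
      exact c.ncz (le_Cz_comm.1 (c.res.perfect.trans h4))
    · exact red2 c hR hY h0 hz (nz_of_le_Cz (hRR.trans (Cz_anti hY.le)))
  · obtain ⟨w, hw⟩ := exists_vec_of_moved c.res hP (nz_normal _ R) hRR hr h2 hA hY hz
    exact ⟨w, w, by simpa using hw⟩

theorem case_symp2 (c : Ctx A φ E R) (hR : Red2 A φ)
    (hb : ⁅R, R⁆ ≤ R ⊓ Cz E) (hab : ⁅R, R⁆ ≠ ⊥) : Goal A φ := by
  have := c.normal
  have := c.res.nz.normal
  obtain ⟨r, hr, h1⟩ := c.exists_prime hb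
  have hZ : ⁅R ⊓ Cz E, R ⊓ Cz E⁆ ≤ ⊥ :=
    (comm_eq_bot.2 (c.z_le.trans (Cz_anti inf_le_left))).le
  set Ω := powSub (R ⊓ Cz E) ⊥ hZ r with hΩ
  have hΩZ : Ω ≤ R ⊓ Cz E := fun _ h => h.1
  have hΩR : Ω ≤ R := hΩZ.trans inf_le_left
  have hΩC : Ω ≤ Cz R := hΩZ.trans c.z_le
  have hΩr : ∀ y ∈ Ω, y ^ r = 1 := fun y h => mem_bot.1 h.2
  have hR' : ⁅R, R⁆ ≤ Ω := commutator_le.2 fun x hx y hy =>
    ⟨hb (commutator_mem_commutator hx hy), mem_bot.2 (c.comm_pow hb h1 hx hy)⟩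
  have hA := c.no_torsion hr fun x hx => hΩr _ (hR' (h1 x hx))
  obtain ⟨Y, hY⟩ := exists_MS (A := A) Ω
  by_cases h0 : Y = ⊥
  swap
  · exact red2 c hR hY h0 (nz_of_le_Cz (le_Cz_comm.1 (hY.le.trans (hΩZ.trans inf_le_right))))
      (nz_of_le_Cz (le_Cz_comm.1 (hY.le.trans hΩC)))
  subst h0
  obtain ⟨z, hz, hz1⟩ := (Ω.bot_or_exists_ne_one).resolve_left fun h => hab (le_bot_iff.1 (h ▸ hR'))
  have hΩz := hY.le_zpowers (hΩC.trans (Cz_anti hΩR)) hr hΩr hA hz hz1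
  obtain ⟨C, hC⟩ := exists_MS (A := A) R
  obtain ⟨v, hv1, hv⟩ := hC.ex
  have hLC : Nz (stabilizer H v) C := by
    rw [← hC.eq hv1 hv]
    exact (nz_normal _ _).inf (nz_self _)
  have hCΩ : ∀ x ∈ C, x ∈ Ω → x = 1 := fun x hx hx' =>
    mem_bot.1 (hY.max v hv1 bot_le ⟨hx', hv hx⟩)
  have hCC : C ≤ Cz C := comm_eq_bot.1 (eq_bot_iff.2 fun x hx => mem_bot.2
    (hCΩ x (commutator_le_self C hx) (hR' (commutator_mono hC.le hC.le hx))))
  have hCr : ∀ x ∈ C, x ^ r = 1 := fun x hx => hCΩ _ (C.pow_mem hx r) (hR' (h1 x (hC.le hx)))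
  set B := Ω ⊔ C with hB
  have hBR : B ≤ R := sup_le hΩR hC.le
  have hBC : B ≤ Cz C := sup_le (hΩC.trans (Cz_anti hC.le)) hCC
  have hBB : B ≤ Cz B := sup_le (hΩC.trans (Cz_anti hBR))
    (le_Cz_comm.1 hBC)
  have hBr : ∀ y ∈ B, y ^ r = 1 := by
    intro y hy
    obtain ⟨a, ha, b, hb, rfl⟩ := (nz_normal C Ω).mem_sup hy
    rw [(Commute.symm (mem_Cz.1 (hΩC ha) b (hC.le hb))).mul_pow, hΩr a ha, hCr b hb, mul_one]
  have hRB : Nz R B := nz_of_comm_le ((commutator_mono le_rfl hBR).trans (hR'.trans le_sup_left))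
  have hLB : Nz (stabilizer H v) B := (nz_normal _ _).sup hLC
  have hCB : MS A B C := hC.restrict le_sup_right hBR
  obtain ⟨𝓕, hF1, hF2⟩ := exists_flag_family (R := R) (C := C) (nz_iff.1 (nz_of_le_Cz
    (hR'.trans (hΩC.trans (Cz_anti hC.le)))))
  obtain ⟨w, hw⟩ := exists_code hBB hr hBr hA (Set.toFinite 𝓕).toFinset fun Y hY => by
    obtain ⟨x, hx, rfl⟩ := hF1 Y (by simpa using hY)
    simpa [hRB.smul_eq hx] using hCB.smul x
  refine ⟨v, w, fun hL => ?_⟩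
  obtain ⟨E', hE'⟩ := exists_res hL
  have hEv : E' ≤ stabilizer H v := hE'.le.trans inf_le_left
  have hmv := hF2 E' hE'.perfect (hLC.mono hEv) fun k hk Y hY => by
    simpa using hw k (hLB.smul_eq (hEv hk)) (hE'.le hk).2 Y (by simpa using hY)
  have hE'Ω : E' ≤ Cz Ω := by
    have h2 := comm_centralizes (K := E') (y := z) (hΩz ▸ nz_normal E' Ω)
    rw [← hΩz] at h2
    exact hE'.perfect.trans h2
  have hE'C : E' ≤ Cz C := by
    intro e he
    rw [mem_Cz]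
    intro k hk
    have h2 : k⁻¹ * (e * k * e⁻¹) ∈ C := C.mul_mem (C.inv_mem hk) (hLC e (hEv he) k hk)
    have h3 : k⁻¹ * (e * k * e⁻¹) ∈ Cz R := by
      rw [mem_Cz]
      intro x hx
      have h4 : x⁻¹ * k * x⁻¹⁻¹ ∈ x⁻¹ • C := smul_mem_smul.2 hk
      have h5 := (x⁻¹ • C).mul_mem ((x⁻¹ • C).inv_mem h4)
        (hmv _ (R.inv_mem hx) e he _ h4)
      have h6 : ⁅x⁻¹, k⁆ ∈ Ω := hR' (commutator_mem_commutator (R.inv_mem hx) (hC.le hk))
      have h7 := mem_Cz.1 (hE'Ω he) _ h6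
      have h8 := mem_Cz.1 (hΩC h6) _ (c.normal.conj_mem k (hC.le hk) e)
      have h9 := mem_Cz.1 (hΩC h6) _ (hC.le hk)
      have h10 : (x⁻¹ * k * x⁻¹⁻¹)⁻¹ * (e * (x⁻¹ * k * x⁻¹⁻¹) * e⁻¹) = k⁻¹ * (e * k * e⁻¹) := by
        have h11 : x⁻¹ * k * x⁻¹⁻¹ = ⁅x⁻¹, k⁆ * k := by rw [commutatorElement_def]; group
        rw [h11, ← mul_assoc e, ← h7]
        group
      rw [h10, mem_smul, inv_inv] at h5
      set d := k⁻¹ * (e * k * e⁻¹)
      have h11 : ⁅x, d⁆ = 1 := hCΩ _ (C.mul_mem h5 (C.inv_mem h2))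
        (hR' (commutator_mem_commutator hx (hC.le h2)))
      exact commutatorElement_eq_one_iff_mul_comm.1 h11
    have h4 : R ⊓ Cz R ≤ Cz E := by
      rcases c.min (R ⊓ Cz R) inf_le_left inferInstance with h | h
      · exact absurd (comm_eq_bot.2 (inf_eq_left.1 h)) hab
      · exact h
    have h5 := hCΩ _ h2 ⟨⟨hC.le h2, h4 ⟨hC.le h2, h3⟩⟩, mem_bot.2 (hCr _ h2)⟩
    rw [inv_mul_eq_one, eq_mul_inv_iff_mul_eq] at h5
    exact h5
  set F := R ⊓ Cz C with hF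
  have hLF : Nz (stabilizer H v) F := (nz_normal _ _).inf hLC.cz
  have hRF : ⁅R, E'⁆ ≤ F := by
    refine commutator_le.2 fun x hx e he => ⟨?_, mem_Cz.2 fun k hk => ?_⟩
    · exact commutator_le_left R ⊤ (commutator_mem_commutator hx (mem_top e))
    · have h2 : ⁅x⁻¹, k⁆ ∈ Ω := hR' (commutator_mem_commutator (R.inv_mem hx) (hC.le hk))
      have c1 : Commute ⁅x⁻¹, k⁆ e := mem_Cz.1 (hE'Ω he) _ h2
      have c2 : Commute k e := mem_Cz.1 (hE'C he) _ hk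
      have c3 : Commute (x⁻¹ * k * x) e := by
        have h11 : x⁻¹ * k * x = ⁅x⁻¹, k⁆ * k := by rw [commutatorElement_def]; group
        rw [h11]; exact c1.mul_left c2
      calc k * ⁅x, e⁆ = x * (x⁻¹ * k * x * e) * x⁻¹ * e⁻¹ := by
            rw [commutatorElement_def]; group
        _ = x * e * x⁻¹ * (k * e⁻¹) := by rw [c3.eq]; group
        _ = _ := by rw [c2.inv_right.eq, commutatorElement_def]; group
  have hFB : ∀ y ∈ F, y ^ r = 1 → y ∈ B := by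
    intro y hy hyr
    obtain ⟨a, ha, ha1, h2 | ⟨i, h2⟩⟩ := exists_fixed (A := A) (U := Fx A C)
      (mem_Cz.1 (hΩC hz) y hy.1) hr hyr (hΩr z hz) hA
      (fun h => hv1 (mem_bot.1 (h ▸ (hv : v ∈ Fx A C))))
      (fun a ha => (nz_of_le_Cz le_rfl).smul_mem_Fx hy.2 ha)
      (fun a ha => (nz_of_le_Cz le_rfl).smul_mem_Fx (hBC (mem_sup_left hz)) ha)
    · exact absurd (mem_bot.1 (hY.max a ha1 bot_le ⟨hz, h2⟩)) hz1
    · have h3 := hC.max a ha1 ha ⟨R.mul_mem hy.1 (R.pow_mem (hΩR hz) i), h2⟩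
      exact (B.mul_mem_cancel_right (mem_sup_left (Ω.pow_mem hz i))).1 (mem_sup_right h3)
  obtain ⟨K₁, hK1, hK2, hK3⟩ :
      ∃ K, K ≤ E' ∧ Full φ K ∧ ∀ e ∈ K, ∀ y ∈ F, y⁻¹ * (e * y * e⁻¹) ∈ B := by
    rcases hr.eq_two_or_odd' with h2 | h2
    · subst h2
      have hz2 : z * z = 1 := by rw [← pow_two]; exact hΩr z hz
      refine exists_full_two hE'.full (hLB.mono hEv) (hLF.mono hEv) (mem_sup_left hz) hz1
        (Cz_anti inf_le_left (hΩC hz)) hz2 fun y hy hyB => ?_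
      have h3 : y ^ 2 ∈ zpowers z := hΩz ▸ hR' (h1 y hy.1)
      have h4 : y ^ 2 ≠ 1 := fun h => hyB (hFB y hy h)
      rw [← pow_two]
      obtain ⟨n, hn⟩ := (Submonoid.mem_powers_iff _ _).1 (mem_powers_iff_mem_zpowers.2 h3)
      rw [← hn] at h4 ⊢
      rcases Nat.even_or_odd' n with ⟨k, rfl | rfl⟩
      · exact absurd (by rw [pow_mul, pow_two, hz2, one_pow]) h4
      · rw [pow_succ, pow_mul, pow_two, hz2, one_pow, one_mul]
    · refine ⟨E', le_rfl, hE'.full, fun e he y hy => ?_⟩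
      have h3 : e * y * e⁻¹ ∈ F := hLF e (hEv he) y hy
      refine hFB _ (F.mul_mem (F.inv_mem hy) h3) ?_
      have h4 : ⁅e * y * e⁻¹, y⁻¹⁆ ∈ Ω := hR' (commutator_mem_commutator h3.1 (R.inv_mem hy.1))
      obtain ⟨k, hk⟩ := hr.dvd_choose_self (k := 2) two_ne_zero
        (lt_of_le_of_ne hr.two_le fun h => by rw [← h] at h2; exact absurd h2 (by decide))
      rw [mul_pow_class_two (Commute.symm (mem_Cz.1 (hΩC h4) _ (R.inv_mem hy.1)))
        (Commute.symm (mem_Cz.1 (hΩC h4) _ h3.1)), hk, pow_mul, hΩr _ h4, one_pow, mul_one,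
        conj_pow, ← mem_Cz.1 (hE'Ω he) _ (hR' (h1 y hy.1))]
      simp
  obtain ⟨K, hK⟩ := exists_res hK2
  have hKE : K ≤ E' := hK.le.trans hK1
  have hBK : B ≤ Cz K := sup_le (le_Cz_comm.1 (hKE.trans hE'Ω)) (le_Cz_comm.1 (hKE.trans hE'C))
  have hFK : F ≤ Cz K := le_Cz_of_perfect hK.perfect (le_trans (commutator_le.2 fun y hy e he => by
    have := hK3 e (hK.le he) _ (F.inv_mem hy)
    rw [commutatorElement_def]
    simpa [mul_assoc] using this) hBK)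
  have hRK : R ≤ Cz K :=
    le_Cz_of_perfect hK.perfect (((commutator_mono le_rfl hKE).trans hRF).trans hFK)
  exact c.not_full (hK.full.mono (le_Cz_comm.1 hRK))

end Pool.Agent.P.MP_870b40_al.CF
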