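import Pool.Agent.P.MP_870b40_al.CF.Tr

/-! The case of a nonabelian minimal normal subgroup, using only actions of the quotient. -/

namespace Pool.Agent.P.MP_870b40_al.CF

open Subgroup
open scoped commutatorElement

universe u v

variable {G : Type u} [Group G] {T : Type v} [Group T] [Finite G] {M M₀ : Subgroup G}
  [NAS T] {φ : G →* T}

/-- the Schreier step -/
theorem moved (hM : MinNA M) (hS : ∀ S, Comp M S → ¬ OutSec S T) (hk : M ≤ φ.ker) (hC : ¬ Full φ (Cz M))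
    {E L : Subgroup G} (hE : Res φ E L) : ∃ S, Comp M S ∧ ∃ e ∈ E, e • S ≠ S := by
  classical
  by_contra hcon
  push Not at hcon
  have h1 : ∀ S, Comp M S → E ≤ S ⊔ Cz S := by
    intro S hc
    have hz : Nz E S := nz_of_smul (hcon S hc)
    have hz' : Nz E (E ⊓ (S ⊔ Cz S)) := (nz_self E).inf (hz.sup hz.cz)
    rcases hE.full.dich hz' with h | h
    · exact (hE.min _ (inf_le_left.trans hE.le) h hz').trans inf_le_right
    · exfalso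
      refine hS S hc
        ⟨E, inferInstance, S.normalizerMonoidHom.comp (inclusion (nz_iff.1 hz)),
          φ.comp E.subtype, fun t => ?_, ?_⟩
      · obtain ⟨e, he, rfl⟩ := full_iff.1 hE.full t
        exact ⟨⟨e, he⟩, rfl⟩
      · rintro ⟨e, he⟩ ⟨s, hs⟩
        refine h ⟨he, ?_⟩
        have h2 : (s : G)⁻¹ * e ∈ Cz S := by
          rw [mem_Cz]
          intro k hk
          have h3 : e * k * e⁻¹ = s * k * (s : G)⁻¹ := by
            have h5 := congrArg Subtype.val (DFunLike.congr_fun hs ⟨k, hk⟩)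
            simpa using h5
          calc k * ((s : G)⁻¹ * e) = (s : G)⁻¹ * (s * k * (s : G)⁻¹) * e := by group
            _ = _ := by rw [← h3]; group
        have h4 := (S ⊔ Cz S).mul_mem (mem_sup_left s.2) (mem_sup_right h2)
        simpa using h4
  refine hC (hE.full.of_mul fun e he => ?_)
  have h2 : ∀ A : Finset (Subgroup G), (∀ S ∈ A, Comp M S) →
      ∃ m ∈ M, ∀ S ∈ A, m⁻¹ * e ∈ Cz S := by
    intro A
    induction A using Finset.induction_on with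
    | empty => exact fun _ => ⟨1, M.one_mem, by simp⟩
    | insert S A hSA ih =>
      intro hA
      obtain ⟨m, hm, h3⟩ := ih fun S' hS' => hA S' (Finset.mem_insert_of_mem hS')
      have hc := hA S (Finset.mem_insert_self _ _)
      have h4 : m⁻¹ * e ∈ S ⊔ Cz S := (S ⊔ Cz S).mul_mem
        (((hM.le_sup hc).trans (sup_le_sup_left inf_le_right _)) (M.inv_mem hm)) (h1 S hc he)
      obtain ⟨s, hs, c, hc', h5⟩ := (nz_of_le_Cz le_rfl).mem_sup h4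
      refine ⟨m * s, M.mul_mem hm (hc.le hs), fun S' hS' => ?_⟩
      rw [mul_inv_rev, mul_assoc]
      rcases Finset.mem_insert.1 hS' with rfl | h6
      · rw [h5]; simpa using hc'
      · exact (Cz S').mul_mem ((Cz S').inv_mem
          (hc.le_Cz (hA S' hS') (fun h => hSA (h ▸ h6)) hs)) (h3 S' h6)
  obtain ⟨m, hm, h3⟩ := h2 (Set.toFinite {S | Comp M S}).toFinset (by simp)
  refine ⟨m⁻¹ * e, ?_, by rw [map_mul, map_inv, MonoidHom.mem_ker.1 (hk hm)]; simp⟩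
  have h4 : M ≤ Cz (zpowers (m⁻¹ * e)) :=
    hM.le_of_comp fun S hc => le_Cz_comm.1 (zpowers_le.2 (h3 S (by simpa using hc)))
  exact zpowers_le.1 (le_Cz_comm.1 h4)

theorem caseP (hM : MinNA M) (h0 : M₀ ≤ M) {E L : Subgroup G} (hE : Res φ E L)
    (hP : PPr φ L M₀) (hL : M₀ ≤ L)
    (hz : Nz L M₀) {S₀ : Subgroup G} (hS₀ : Comp M S₀) (hS₁ : ¬ Onto M M₀ S₀) {e : G}
    (he : e ∈ E) (hne : e • S₀ ≠ S₀) :
    ∃ x ∈ M, ∀ W, W ≤ L → (∀ h ∈ W, x⁻¹ * (h * x * h⁻¹) ∈ M₀) → ¬ Full φ W := by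
  obtain ⟨A, hA1, -, hA⟩ := exists_setr hE hP hL {S | Comp M S ∧ ¬ Onto M M₀ S}
    (fun l hl S hS => ⟨hM.comp_smul hS.1 l, fun h => hS.2 (by
      simpa using hM.onto_smul h (hz.smul_eq (L.inv_mem hl)))⟩) ⟨hS₀, hS₁⟩
    (fun m hm => hS₀.nz.smul_eq (h0 hm)) he hne
  obtain ⟨x, hx, h1, h2⟩ := exists_support (M := M) (fun S => M₀ ⊔ (M ⊓ Cz S))
    (fun S _ => le_sup_right) A fun S hS => ⟨(hA1 S hS).1, fun h => (hA1 S hS).2
      ⟨(hA1 S hS).1, (hM.le_sup (hA1 S hS).1).trans (sup_le h le_sup_right)⟩⟩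
  refine ⟨x, hx, fun W hW hW' => hA W hW fun h hh S hS => ?_⟩
  by_contra hcon
  have h3 := h2 _ (hM.comp_smul (hA1 S hS).1 h) hcon
  have h4 : h⁻¹ * x * h⁻¹⁻¹ ∈ Cz S := by rw [conj_mem_Cz, inv_inv]; exact h3
  have h5 : h⁻¹ * x * h⁻¹⁻¹ ∈ M₀ ⊔ (M ⊓ Cz S) := mem_sup_right ⟨hM.normal.conj_mem x hx _, h4⟩
  have h6 : x⁻¹ * (h⁻¹ * x * h⁻¹⁻¹) ∈ M₀ ⊔ (M ⊓ Cz S) := mem_sup_left (hW' _ (W.inv_mem hh))
  rw [Subgroup.mul_mem_cancel_right _ h5, inv_mem_iff] at h6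
  exact h1 S hS h6

theorem caseQ1 (hM : MinNA M) (h0 : M₀ ≤ M) (hc : ∀ S, Comp M S → ¬ S ≤ M₀)
    {E L : Subgroup G} (hE : Res φ E L) (hP : PPr φ L M₀) (hL : M₀ ≤ L)
    (hz : Nz L M₀) {S₀ : Subgroup G} (hS₀ : Onto M M₀ S₀) {e : G}
    (he : e ∈ E) (hne : e • (M₀ ⊓ Cz S₀) ≠ M₀ ⊓ Cz S₀) :
    ∃ x ∈ M, ∀ W, W ≤ L → (∀ h ∈ W, x⁻¹ * (h * x * h⁻¹) ∈ M₀) → ¬ Full φ W := by
  classical
  have hsm : ∀ l ∈ L, ∀ S : Subgroup G, l • (M₀ ⊓ Cz S) = M₀ ⊓ Cz (l • S) := fun l hl S => by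
    rw [smul_inf', smul_Cz, hz.smul_eq hl]
  obtain ⟨A, hA1, -, hA⟩ := exists_setr hE hP hL {K | ∃ S, Onto M M₀ S ∧ M₀ ⊓ Cz S = K}
    (by
      rintro l hl _ ⟨S, hS, rfl⟩
      exact ⟨l • S, hM.onto_smul hS (hz.smul_eq hl), (hsm l hl S).symm⟩) ⟨S₀, hS₀, rfl⟩
    (fun m hm => ((nz_self M₀).inf (hS₀.1.nz.mono h0).cz).smul_eq hm) he hne
  choose! σ hσ1 hσ2 using hA1
  have hB : ∀ S ∈ A.image σ, Onto M M₀ S ∧ M₀ ⊓ Cz S ∈ A ∧ σ (M₀ ⊓ Cz S) = S := by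
    intro S hS
    obtain ⟨K, hK, rfl⟩ := Finset.mem_image.1 hS
    rw [hσ2 K hK]
    exact ⟨hσ1 K hK, hK, rfl⟩
  obtain ⟨x, hx, h1, h2⟩ := exists_support (M := M) (fun S => Cz S)
    (fun S _ => inf_le_right) (A.image σ) fun S hS =>
      ⟨(hB S hS).1.1, hM.not_le_Cz (hB S hS).1.1⟩
  refine ⟨x, hx, fun W hW hW' => hA W hW fun h hh K hK => ?_⟩
  by_contra hcon
  have hS := hσ1 K hK
  have hSK := hσ2 K hK
  have hm := hW' _ (W.inv_mem hh)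
  have key : ∀ S, Comp M S → (Onto M M₀ S → M₀ ⊓ Cz S = K) → h⁻¹ * x * h⁻¹⁻¹ ∈ Cz S := by
    intro S hS1 hS2
    rw [conj_mem_Cz, inv_inv]
    refine h2 _ (hM.comp_smul hS1 h) fun h3 => hcon ?_
    have h4 : Onto M M₀ S := by
      simpa using hM.onto_smul (hB _ h3).1 (hz.smul_eq (L.inv_mem (hW hh)))
    rw [← hS2 h4, hsm h (hW hh)]
    exact (hB _ h3).2.1
  obtain ⟨S', hS'1, hS'2, hS'3⟩ := hM.q2 h0 hS (hc _ hS.1)
  have h3 : Onto M M₀ S' → M₀ ⊓ Cz S' = K := fun h3 => (hM.q3 h0 hS h3 hS'3).trans hSK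
  have h4 : x ∈ Cz S' := h2 _ hS'1 fun h4 => hS'2 (by
    rw [← (hB _ h4).2.2, h3 (hB _ h4).1])
  have h5 := hS'3 ⟨hm, (Cz S').mul_mem ((Cz S').inv_mem h4) (key S' hS'1 h3)⟩
  rw [Subgroup.mul_mem_cancel_right _ (key _ hS.1 fun _ => hSK), inv_mem_iff] at h5
  exact h1 _ (Finset.mem_image_of_mem σ hK) h5

open scoped Pointwise in
theorem caseQ2 (hM : MinNA M) (h0 : M₀ ≤ M) {E L : Subgroup G} (hE : Res φ E L)
    (hP : ∀ L', E ≤ L' → L' ≤ L → PPr φ L' M₀) (hL : M₀ ≤ L)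
    (hz : Nz L M₀) {S₀ : Subgroup G} (hS₀ : Onto M M₀ S₀) (hK : Nz E (M₀ ⊓ Cz S₀)) {e : G}
    (he : e ∈ E) (hne : e • S₀ ≠ S₀) :
    ∃ x ∈ M, ∀ W, W ≤ L → (∀ h ∈ W, x⁻¹ * (h * x * h⁻¹) ∈ M₀) → ¬ Full φ W := by
  classical
  have hsm : ∀ l ∈ L, ∀ S : Subgroup G, l • (M₀ ⊓ Cz S) = M₀ ⊓ Cz (l • S) := fun l hl S => by
    rw [smul_inf', smul_Cz, hz.smul_eq hl]
  set K₀ := M₀ ⊓ Cz S₀ with hK₀
  let L' := L ⊓ MulAction.stabilizer G K₀
  have hEL' : E ≤ L' := le_inf hE.le fun e he => hK.smul_eq he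
  have hE' : Res φ E L' := hE.restrict hEL' inf_le_left
  let B : Finset (Subgroup G) := (Set.toFinite {S | Onto M M₀ S ∧ M₀ ⊓ Cz S = K₀}).toFinset
  have hB : ∀ S, S ∈ B ↔ Onto M M₀ S ∧ M₀ ⊓ Cz S = K₀ := fun S => by simp [B]
  have hBL : ∀ l ∈ L', ∀ S ∈ B, l • S ∈ B := by
    intro l hl S hS
    rw [hB] at hS ⊢
    refine ⟨hM.onto_smul hS.1 (hz.smul_eq hl.1), ?_⟩
    rw [← hsm l hl.1, hS.2]
    exact hl.2
  obtain ⟨A₀, hA₀, -, hA₀'⟩ := exists_setr hE' (hP L' hEL' inf_le_left)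
    (le_inf hL fun m hm => ((nz_self M₀).inf (hS₀.1.nz.mono h0).cz).smul_eq hm)
    (B : Set (Subgroup G)) hBL ((hB S₀).2 ⟨hS₀, rfl⟩)
    (fun m hm => hS₀.1.nz.smul_eq (h0 hm)) he hne
  obtain ⟨A, ⟨hA1, hA⟩, hAmin⟩ := exists_minimalFor_of_wellFoundedLT
    (fun A : Finset (Subgroup G) => A ⊆ B ∧
      ∀ W, W ≤ L' → (∀ w ∈ W, ∀ a ∈ A, w • a ∈ A) → ¬ Full φ W) Finset.card ⟨A₀, hA₀, hA₀'⟩
  have hfull : Full φ L' := hE.full.mono hEL'
  have hcard : A.card ≤ (B \ A).card := by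
    by_contra hcon
    refine hcon (hAmin ⟨Finset.sdiff_subset, fun W hW hW' => hA W hW fun w hw a ha => ?_⟩
      (not_le.1 hcon).le)
    by_contra h1
    have h2 := hW' _ (W.inv_mem hw) _ (Finset.mem_sdiff.2 ⟨hBL w (hW hw) a (hA1 ha), h1⟩)
    rw [inv_smul_smul] at h2
    exact (Finset.mem_sdiff.1 h2).2 ha
  obtain ⟨S₁, hS₁⟩ : A.Nonempty := by
    rw [Finset.nonempty_iff_ne_empty]
    rintro rfl
    exact hA L' le_rfl (by simp) hfull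
  obtain ⟨S₂, hS₂⟩ : (B \ A).Nonempty :=
    Finset.card_pos.1 ((Finset.card_pos.2 ⟨S₁, hS₁⟩).trans_le hcard)
  obtain ⟨x, hx, h1, h2⟩ := exists_support (M := M) (fun S => Cz S)
    (fun S _ => inf_le_right) A fun S hS =>
      ⟨((hB S).1 (hA1 hS)).1.1, hM.not_le_Cz ((hB S).1 (hA1 hS)).1.1⟩
  have h3 : ∀ h : G, ∀ S ∈ B, h * x * h⁻¹ ∉ Cz S → S ∈ h • A := by
    intro h S hS h3
    rw [← Finset.inv_smul_mem_iff]
    by_contra h4
    exact h3 (conj_mem_Cz.2 (h2 _ (hM.comp_smul ((hB S).1 hS).1.1 _) h4))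
  have h4 : ∀ m ∈ M₀, ∀ S ∈ B, m ∈ K₀ ↔ m ∈ Cz S := by
    intro m hm S hS
    rw [← ((hB S).1 hS).2]
    exact ⟨fun h => h.2, fun h => ⟨hm, h⟩⟩
  refine ⟨x, hx, fun W hW hW' hf => ?_⟩
  have hWL' : W ≤ L' := by
    intro h hh
    refine ⟨hW hh, ?_⟩
    by_contra hcon
    have h5 : ∀ S ∈ B, h * x * h⁻¹ ∈ Cz S := by
      intro S hS
      by_contra h5
      have h6 := h3 h S hS h5
      rw [← Finset.inv_smul_mem_iff] at h6
      have h7 := ((hB _).1 (hA1 h6)).2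
      rw [← hsm _ (L.inv_mem (hW hh)), ((hB S).1 hS).2, inv_smul_eq_iff] at h7
      exact hcon h7.symm
    have hS₂' := Finset.mem_sdiff.1 hS₂
    have h6 : x⁻¹ * (h * x * h⁻¹) ∈ Cz S₂ :=
      mul_mem (inv_mem (h2 _ ((hB _).1 hS₂'.1).1.1 hS₂'.2)) (h5 _ hS₂'.1)
    rw [← h4 _ (hW' h hh) _ hS₂'.1, h4 _ (hW' h hh) _ (hA1 hS₁),
      Subgroup.mul_mem_cancel_right _ (h5 _ (hA1 hS₁)), inv_mem_iff] at h6
    exact h1 _ hS₁ h6
  have h5 := hf.inf_stab ({A, B \ A} : Finset (Finset (Subgroup G)))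
    (Finset.card_le_two.trans (by norm_num)) A (by
      intro h hh
      rw [Finset.mem_insert, Finset.mem_singleton]
      by_cases hm : x⁻¹ * (h * x * h⁻¹) ∈ K₀
      · left
        refine (Finset.eq_of_subset_of_card_le (fun S hS => h3 h S (hA1 hS) fun h5 => ?_)
          (by rw [Finset.card_smul_finset])).symm
        rw [h4 _ (hW' h hh) _ (hA1 hS), Subgroup.mul_mem_cancel_right _ h5, inv_mem_iff] at hm
        exact h1 S hS hm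
      · right
        refine (Finset.eq_of_subset_of_card_le (fun S hS => ?_)
          (by rw [Finset.card_smul_finset]; exact hcard)).symm
        have hS' := Finset.mem_sdiff.1 hS
        refine h3 h S hS'.1 fun h5 => hm ?_
        rw [h4 _ (hW' h hh) _ hS'.1]
        exact mul_mem (inv_mem (h2 _ ((hB _).1 hS'.1).1.1 hS'.2)) h5)
  refine hA _ (inf_le_left.trans hWL') (fun w hw a ha => ?_) h5
  have h6 : w • A = A := hw.2
  rw [← h6]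
  exact Finset.smul_mem_smul_finset ha

/-- the nonabelian case -/
theorem na_main (hM : MinNA M) (hS : ∀ S, Comp M S → ¬ OutSec S T) (hk : M ≤ φ.ker)
    (hC : ¬ Full φ (Cz M)) {L : Subgroup G}
    (hP : ∀ E L', Res φ E L → E ≤ L' → L' ≤ L → PPr φ L' M₀) (h0 : M₀ ≤ M) (h0' : M₀ ≤ L)
    (hz : Nz L M₀)
    (hc : ∀ S, Comp M S → ¬ S ≤ M₀) :
    ∃ x ∈ M, ∀ W, W ≤ L → (∀ h ∈ W, x⁻¹ * (h * x * h⁻¹) ∈ M₀) → ¬ Full φ W := by
  by_cases hL : Full φ L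
  swap
  · exact ⟨1, M.one_mem, fun W hW _ hf => hL (hf.mono hW)⟩
  obtain ⟨E, hE⟩ := exists_res hL
  obtain ⟨S, hS1, e, he, hne⟩ := moved hM hS hk hC hE
  by_cases h1 : Onto M M₀ S
  · by_cases h2 : Nz E (M₀ ⊓ Cz S)
    · exact caseQ2 hM h0 hE (fun L' => hP E L' hE) h0' hz h1 h2 he hne
    · have : ∃ e ∈ E, e • (M₀ ⊓ Cz S) ≠ M₀ ⊓ Cz S := by
        by_contra h3
        push Not at h3
        exact h2 (nz_of_smul h3)
      obtain ⟨e', he', hne'⟩ := this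
      exact caseQ1 hM h0 hc hE (hP E L hE hE.le le_rfl) h0' hz h1 he' hne'
  · exact caseP hM h0 hE (hP E L hE hE.le le_rfl) h0' hz hS1 h1 he hne
end Pool.Agent.P.MP_870b40_al.CF
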