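import Pool.Agent.P.MP_870b40_al.Main

/-! The Schreier-type condition for composition factors only, and its transfer. -/

namespace Pool.Agent.P.MP_870b40_al.CF

open Subgroup
open scoped commutatorElement

universe u v

variable {G : Type u} [Group G] {T : Type v} [Group T]

/-- the condition, only for factors inside the residual -/
def Sch2 (φ : G →* T) : Prop :=
  ∀ D, Res φ D ⊤ → ∀ A B : Subgroup G, A ≤ B → B ≤ D → Nz B A → Nz D B → A ≤ φ.ker →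
    ∀ (S : Type u) [Group S] [NAS S] (f : A →* S), Function.Surjective f → ¬ OutSec S T

theorem nz_map {G' : Type u} [Group G'] (π : G →* G') {L K : Subgroup G} (h : Nz L K) :
    Nz (L.map π) (K.map π) := by
  rintro _ ⟨l, hl, rfl⟩ _ ⟨a, ha, rfl⟩
  exact ⟨_, h l hl a ha, by simp⟩

theorem nz_comap {G' : Type u} [Group G'] (π : G →* G') {L K : Subgroup G'} (h : Nz L K) :
    Nz (L.comap π) (K.comap π) := fun l hl a ha => by
  rw [mem_comap, map_mul, map_mul, map_inv]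
  exact h _ hl _ ha

theorem res_map {G' : Type u} [Group G'] {φ : G →* T} (π : G' →* G) {D' L : Subgroup G'}
    {D : Subgroup G} (h' : Res (φ.comp π) D' L) (h : Res φ D ⊤) (hD : D ≤ L.map π) :
    D'.map π = D := by
  refine le_antisymm (map_le_iff_le_comap.2 ((h'.min (D.comap π ⊓ L) inf_le_right ?_ ?_).trans
    inf_le_left)) (h.min _ le_top ((full_map _ _).2 h'.full) ((nz_map π h'.nz).mono hD))
  · rw [← full_map]
    refine h.full.mono fun d hd => ?_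
    obtain ⟨l, hl, rfl⟩ := hD hd
    exact ⟨l, ⟨hd, hl⟩, rfl⟩
  · exact ((nz_comap π h.nz).mono fun _ _ => mem_top _).inf (nz_of_le h'.le)

theorem res_eq {φ : G →* T} {D D' : Subgroup G} (h : Res φ D ⊤) (h' : Res φ D' ⊤) : D = D' :=
  le_antisymm (h.min _ le_top h'.full (h'.nz.mono le_top))
    (h'.min _ le_top h.full (h.nz.mono le_top))

variable [NAS T]

theorem Sch2.push {G' : Type u} [Group G'] [Finite G] {φ' : G' →* T} (π : G →* G')
    (hπ : Function.Surjective π) (h : Sch2 (φ'.comp π)) : Sch2 φ' := by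
  intro D' hD' A B hAB hBD hBA hDB hk S _ _ f hf
  have ht : (⊤ : Subgroup G).map π = ⊤ := map_top_of_surjective π hπ
  obtain ⟨D, hD⟩ := exists_res (φ := φ'.comp π) (L := ⊤)
    ((full_map _ _).1 (ht ▸ hD'.full.mono le_top))
  have e := res_map π hD hD' (ht ▸ le_top)
  have hc : D ≤ D'.comap π := map_le_iff_le_comap.1 e.le
  refine h D hD (A.comap π ⊓ D) (B.comap π ⊓ D) (inf_le_inf_right _ (comap_mono hAB))
    inf_le_right (((nz_comap π hBA).mono inf_le_left).inf (nz_of_le inf_le_right))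
    (((nz_comap π hDB).mono hc).inf (nz_self D)) (fun x hx => hk hx.1) S
    (f.comp ((π.subgroupComap A).comp (inclusion inf_le_left))) fun s => ?_
  obtain ⟨a, rfl⟩ := hf s
  obtain ⟨d, hd, h1⟩ : (a : G') ∈ D.map π := e ▸ hBD (hAB a.2)
  exact ⟨⟨d, show π d ∈ A from h1 ▸ a.2, hd⟩, congrArg f (Subtype.ext h1)⟩

theorem Sch2.pull {G' : Type u} [Group G'] [Finite G] {φ : G →* T} (h : Sch2 φ) (π : G' →* G)
    (hab : π.ker ≤ Cz π.ker) (hD : ∀ D, Res φ D ⊤ → D ≤ π.range) : Sch2 (φ.comp π) := by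
  intro D' hD' A B hAB hBD hBA hDB hk S _ _ f hf
  obtain ⟨D, hD1⟩ := exists_res (φ := φ) (L := ⊤) (((full_map _ _).2 hD'.full).mono le_top)
  have e := res_map π hD' hD1 (by rw [← MonoidHom.range_eq_map]; exact hD D hD1)
  have hs := π.subgroupMap_surjective A
  have hle : (π.subgroupMap A).ker ≤ f.ker := by
    have hn : ((π.subgroupMap A).ker.map f).Normal := Normal.map inferInstance f hf
    rcases hn.eq_bot_or_eq_top with h1 | h1
    · exact (Subgroup.map_eq_bot_iff _).1 h1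
    · exfalso
      obtain ⟨a, b, hab'⟩ := NAS.ncomm (T := S)
      obtain ⟨x, hx, rfl⟩ : a ∈ (π.subgroupMap A).ker.map f := h1 ▸ mem_top a
      obtain ⟨y, hy, rfl⟩ : b ∈ (π.subgroupMap A).ker.map f := h1 ▸ mem_top b
      refine hab' ?_
      rw [← map_mul, ← map_mul]
      exact congrArg f (Subtype.ext (mem_Cz.1 (hab (congrArg Subtype.val hy : π y = 1)) _
        (congrArg Subtype.val hx : π x = 1)))
  refine h D hD1 (A.map π) (B.map π) (map_mono hAB) (e ▸ map_mono hBD) (nz_map π hBA)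
    (e ▸ nz_map π hDB) (by rintro _ ⟨a, ha, rfl⟩; exact hk ha) S
    ((π.subgroupMap A).liftOfSurjective hs ⟨f, hle⟩) fun s => ?_
  obtain ⟨a, rfl⟩ := hf s
  exact ⟨π.subgroupMap A a, MonoidHom.liftOfRightInverse_comp_apply _ _ _ _ _⟩

theorem Sch2.sub [Finite G] {φ : G →* T} (h : Sch2 φ) {L D : Subgroup G} (hD : Res φ D ⊤)
    (hL : D ≤ L) : Sch2 (φ.comp L.subtype) :=
  h.pull _ (by rw [ker_subtype]; exact bot_le) fun D' hD' => by
    rw [range_subtype, res_eq hD' hD]; exact hL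

/-- the induction hypothesis -/
def IH2 (n : ℕ) (T : Type v) [Group T] : Prop :=
  ∀ (Γ : Type u) [Group Γ] [Finite Γ] (ψ : Γ →* T), Sch2 ψ → Nat.card Γ ≤ n → PP ψ ⊤

omit [NAS T] in
theorem IH2.sub {n : ℕ} (h : IH2.{u} n T) [Finite G] {φ : G →* T} (L : Subgroup G)
    (hφ : Sch2 (φ.comp L.subtype)) (hL : Nat.card L ≤ n) : PP φ L :=
  PP.of_subtype (h L _ hφ hL)

/-- three conjugates suffice, inside `L`, for subgroups containing `M₀` -/
def PPr (φ : G →* T) (L M₀ : Subgroup G) : Prop :=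
  ∀ H, M₀ ≤ H → H ≤ L → (∀ K, K ≤ H → Nz L K → ¬ Full φ K) →
    ∃ g₁ ∈ L, ∃ g₂ ∈ L, ¬ Full φ (H ⊓ g₁ • H ⊓ g₂ • H)

omit [NAS T] in
theorem PPr.of_map {G' : Type u} [Group G'] {ψ : G' →* T} (π : G →* G') {L M₀ : Subgroup G}
    (hk : π.ker ⊓ L ≤ M₀) (h : PP ψ (L.map π)) : PPr (ψ.comp π) L M₀ := by
  intro H h0 hH hK
  obtain ⟨_, ⟨g₁, hg₁, rfl⟩, _, ⟨g₂, hg₂, rfl⟩, h1⟩ := h (H.map π) (map_mono hH) (by
    intro K hKH hKz hKf
    refine hK (K.comap π ⊓ L) (fun x hx => ?_)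
      (((nz_comap π hKz).mono (le_comap_map π L)).inf (nz_self L)) ?_
    · obtain ⟨y, hy, e⟩ := hKH hx.1
      have : y⁻¹ * x ∈ H := h0 (hk ⟨by simp [MonoidHom.mem_ker, e],
        L.mul_mem (L.inv_mem (hH hy)) hx.2⟩)
      exact (H.mul_mem_cancel_left (H.inv_mem hy)).1 this
    · rw [← full_map]
      refine hKf.mono fun k hk => ?_
      obtain ⟨y, hy, rfl⟩ := hKH hk
      exact ⟨y, ⟨hk, hH hy⟩, rfl⟩)
  refine ⟨g₁, hg₁, g₂, hg₂, fun hf => h1 (((full_map _ _).2 hf).mono ?_)⟩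
  rintro _ ⟨x, ⟨⟨hx, hx1⟩, hx2⟩, rfl⟩
  exact ⟨⟨mem_map_of_mem _ hx, mem_smul.2 ⟨_, mem_smul.1 hx1, by simp⟩⟩,
    mem_smul.2 ⟨_, mem_smul.1 hx2, by simp⟩⟩

variable [Finite G] {φ : G →* T}

omit [NAS T] [Finite G] in
theorem exists_three {X : Type*} [MulAction G X] {E L M₀ : Subgroup G} (hE : Res φ E L)
    (hP : PPr φ L M₀) (h0 : M₀ ≤ L) {y : X} (hy : M₀ ≤ MulAction.stabilizer G y) {e : G}
    (he : e ∈ E) (hey : e • y ≠ y) : ∃ g₁ ∈ L, ∃ g₂ ∈ L, ¬ Full φ (L ⊓ MulAction.stabilizer G y ⊓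
      MulAction.stabilizer G (g₁ • y) ⊓ MulAction.stabilizer G (g₂ • y)) := by
  obtain ⟨g₁, hg₁, g₂, hg₂, h⟩ := hP (L ⊓ MulAction.stabilizer G y) (le_inf h0 hy) inf_le_left (by
    intro K hK hK1 hK2
    exact hey (hK (hE.min K (hK.trans inf_le_left) hK2 (hK1.mono hE.le) he)).2)
  refine ⟨g₁, hg₁, g₂, hg₂, fun hf => h (hf.mono ?_)⟩
  rintro x ⟨⟨⟨hx, hx1⟩, hx2⟩, hx3⟩
  have key : ∀ g ∈ L, x • g • y = g • y → x ∈ g • (L ⊓ MulAction.stabilizer G y) := by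
    intro g hg hxg
    refine mem_smul.2 ⟨L.mul_mem (L.mul_mem (L.inv_mem hg) hx) hg, ?_⟩
    change (g⁻¹ * x * g) • y = y
    rw [mul_smul, mul_smul, hxg, inv_smul_smul]
  exact ⟨⟨⟨hx, hx1⟩, key _ hg₁ hx2⟩, key _ hg₂ hx3⟩

theorem exists_setr {X : Type*} [MulAction G X] {E L M₀ : Subgroup G} (hE : Res φ E L)
    (hP : PPr φ L M₀) (h0 : M₀ ≤ L) (Y : Set X) (hY : ∀ l ∈ L, ∀ y ∈ Y, l • y ∈ Y) {y : X}
    (hy : y ∈ Y) (hy0 : M₀ ≤ MulAction.stabilizer G y) {e : G} (he : e ∈ E) (hey : e • y ≠ y) :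
    ∃ A : Finset X, (∀ a ∈ A, a ∈ Y) ∧ A.card ≤ 3 ∧
      ∀ W, W ≤ L → (∀ w ∈ W, ∀ a ∈ A, w • a ∈ A) → ¬ Full φ W := by
  classical
  obtain ⟨g₁, hg₁, g₂, hg₂, h⟩ := exists_three hE hP h0 hy0 he hey
  have hc : ({y, g₁ • y, g₂ • y} : Finset X).card ≤ 3 := Finset.card_le_three
  refine ⟨{y, g₁ • y, g₂ • y}, ?_, hc, fun W hW hWA hf => h ?_⟩
  · intro a ha
    simp only [Finset.mem_insert, Finset.mem_singleton] at ha
    rcases ha with rfl | rfl | rfl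
    exacts [hy, hY _ hg₁ _ hy, hY _ hg₂ _ hy]
  have h1 := hf.inf_stab _ hc y fun w hw => hWA w hw _ (by simp)
  have h2 := h1.inf_stab _ hc (g₁ • y) fun w hw => hWA w hw.1 _ (by simp)
  have h3 := h2.inf_stab _ hc (g₂ • y) fun w hw => hWA w hw.1.1 _ (by simp)
  exact h3.mono (inf_le_inf_right _ (inf_le_inf_right _ (inf_le_inf_right _ hW)))

end Pool.Agent.P.MP_870b40_al.CF
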